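import Mathlib

set_option autoImplicit false

namespace Pool.Agent.MP67f4ab

open Multiset

section basic
variable {G : Type*} [Group G] {φ : G → ℝ} {D : ℝ}

theorem D_nonneg (hq : ∀ g h : G, |φ (g * h) - φ g - φ h| ≤ D) : 0 ≤ D :=
  le_trans (abs_nonneg _) (hq 1 1)

theorem phi_one (hh : ∀ (g : G) (n : ℕ), φ (g ^ n) = (n : ℝ) * φ g) : φ 1 = 0 := by
  have := hh 1 0
  simpa using this

/-- a real number all of whose natural multiples are bounded vanishes -/
theorem eq_zero_of_nat_mul_le {c K : ℝ} (h : ∀ n : ℕ, (n : ℝ) * c ≤ K) : c ≤ 0 := by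
  by_contra hc
  push Not at hc
  obtain ⟨n, hn⟩ := exists_nat_gt (K / c)
  have := h n
  rw [div_lt_iff₀ hc] at hn
  linarith

theorem phi_inv (hq : ∀ g h : G, |φ (g * h) - φ g - φ h| ≤ D)
    (hh : ∀ (g : G) (n : ℕ), φ (g ^ n) = (n : ℝ) * φ g) (g : G) : φ g⁻¹ = - φ g := by
  have h1 : φ 1 = 0 := phi_one hh
  have key : ∀ n : ℕ, |(n : ℝ) * (φ g + φ g⁻¹)| ≤ D := by
    intro n
    have := hq (g ^ n) (g⁻¹ ^ n)
    have e : g ^ n * g⁻¹ ^ n = 1 := by rw [inv_pow, mul_inv_cancel]
    rw [e, h1, hh, hh] at this
    have e2 : (0 : ℝ) - n * φ g - n * φ g⁻¹ = - (n * (φ g + φ g⁻¹)) := by ring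
    rwa [e2, abs_neg] at this
  have a1 : φ g + φ g⁻¹ ≤ 0 := eq_zero_of_nat_mul_le (K := D) fun n => le_trans (le_abs_self _) (key n)
  have a2 : -(φ g + φ g⁻¹) ≤ 0 := eq_zero_of_nat_mul_le (K := D) fun n => by
    have := le_trans (neg_le_abs _) (key n)
    linarith
  linarith

theorem phi_conj (hq : ∀ g h : G, |φ (g * h) - φ g - φ h| ≤ D)
    (hh : ∀ (g : G) (n : ℕ), φ (g ^ n) = (n : ℝ) * φ g) (x g : G) :
    φ (x * g * x⁻¹) = φ g := by
  have hinv := phi_inv hq hh x
  have key : ∀ n : ℕ, |(n : ℝ) * (φ (x * g * x⁻¹) - φ g)| ≤ 2 * D := by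
    intro n
    have h1 := hq (x * g ^ n) x⁻¹
    have h2 := hq x (g ^ n)
    have e : x * g ^ n * x⁻¹ = (x * g * x⁻¹) ^ n := by rw [conj_pow]
    rw [e, hh] at h1
    rw [hh] at h2
    have e3 : (n : ℝ) * (φ (x * g * x⁻¹) - φ g) =
      ((n : ℝ) * φ (x * g * x⁻¹) - φ (x * g ^ n) - φ x⁻¹) + (φ (x * g ^ n) - φ x - n * φ g) := by
      rw [hinv]; ring
    rw [e3]
    refine le_trans (abs_add_le _ _) ?_
    linarith
  have a1 : φ (x * g * x⁻¹) - φ g ≤ 0 :=
    eq_zero_of_nat_mul_le (K := 2 * D) fun n => le_trans (le_abs_self _) (key n)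
  have a2 : -(φ (x * g * x⁻¹) - φ g) ≤ 0 := eq_zero_of_nat_mul_le (K := 2 * D) fun n => by
    have := le_trans (neg_le_abs _) (key n)
    linarith
  linarith

theorem phi_comm (hq : ∀ g h : G, |φ (g * h) - φ g - φ h| ≤ D)
    (hh : ∀ (g : G) (n : ℕ), φ (g ^ n) = (n : ℝ) * φ g) (a b : G) :
    φ (a * b) = φ (b * a) := by
  have := phi_conj hq hh a (b * a)
  rw [← this]
  congr 1
  group

/-- gluing two letters of one cyclic word -/
theorem glue_one (hq : ∀ g h : G, |φ (g * h) - φ g - φ h| ≤ D)
    (hh : ∀ (g : G) (n : ℕ), φ (g ^ n) = (n : ℝ) * φ g) (x a b : G) :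
    φ a + φ b ≤ φ (x * (a * (x⁻¹ * b))) + D := by
  have h1 := hq (x * a * x⁻¹) b
  rw [phi_conj hq hh] at h1
  have e : x * a * x⁻¹ * b = x * (a * (x⁻¹ * b)) := by group
  rw [e] at h1
  have := (abs_le.mp h1).1
  linarith

/-- gluing two letters of two cyclic words -/
theorem glue_two (hq : ∀ g h : G, |φ (g * h) - φ g - φ h| ≤ D)
    (hh : ∀ (g : G) (n : ℕ), φ (g ^ n) = (n : ℝ) * φ g) (x a b : G) :
    φ (a * b) ≤ φ (x * a) + φ (x⁻¹ * b) + D := by
  have h1 := hq (x⁻¹ * (x * a) * (x⁻¹)⁻¹) (x⁻¹ * b)
  rw [phi_conj hq hh] at h1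
  have e : x⁻¹ * (x * a) * (x⁻¹)⁻¹ * (x⁻¹ * b) = a * b := by group
  rw [e] at h1
  have := (abs_le.mp h1).2
  linarith

end basic

section words
variable {G : Type*}

/-- total letter content of a multiset of words -/
def content (W : Multiset (List G)) : Multiset G :=
  (W.map (fun w : List G => (w : Multiset G))).sum

/-- the sum of the values of `φ` on a multiset -/
def vsum (φ : G → ℝ) (U : Multiset G) : ℝ := (U.map φ).sum

@[simp] theorem content_zero : content (0 : Multiset (List G)) = 0 := by simp [content]
@[simp] theorem content_cons (w : List G) (W : Multiset (List G)) :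
    content (w ::ₘ W) = (w : Multiset G) + content W := by simp [content]
@[simp] theorem content_add (V W : Multiset (List G)) :
    content (V + W) = content V + content W := by simp [content]
@[simp] theorem vsum_zero (φ : G → ℝ) : vsum φ 0 = 0 := by simp [vsum]
@[simp] theorem vsum_cons (φ : G → ℝ) (x : G) (U : Multiset G) :
    vsum φ (x ::ₘ U) = φ x + vsum φ U := by simp [vsum]
@[simp] theorem vsum_add (φ : G → ℝ) (U V : Multiset G) :
    vsum φ (U + V) = vsum φ U + vsum φ V := by simp [vsum]

theorem vsum_coe_cons (φ : G → ℝ) (x : G) (w : List G) :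
    vsum φ ((x :: w : List G) : Multiset G) = φ x + vsum φ (w : Multiset G) := by
  rw [← Multiset.cons_coe, vsum_cons]

theorem mem_content {W : Multiset (List G)} {x : G} (h : x ∈ content W) :
    ∃ w ∈ W, x ∈ w := by
  induction W using Multiset.induction_on with
  | empty => simp at h
  | cons w W ih =>
    rw [content_cons, Multiset.mem_add] at h
    rcases h with h | h
    · exact ⟨w, Multiset.mem_cons_self _ _, by simpa using h⟩
    · obtain ⟨v, hv, hx⟩ := ih h
      exact ⟨v, Multiset.mem_cons_of_mem hv, hx⟩

/-- extraction of a letter: some word of `W` can be written `p ++ x :: q` -/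
theorem exists_word {W : Multiset (List G)} {x : G} (h : x ∈ content W) :
    ∃ (p q : List G) (W' : Multiset (List G)), W = (p ++ x :: q) ::ₘ W' := by
  obtain ⟨w, hw, hx⟩ := mem_content h
  obtain ⟨W', rfl⟩ := Multiset.exists_cons_of_mem hw
  obtain ⟨p, q, rfl⟩ := List.append_of_mem hx
  exact ⟨p, q, W', rfl⟩

theorem coe_mid (p q : List G) (x : G) :
    ((p ++ x :: q : List G) : Multiset G) = x ::ₘ ((q ++ p : List G) : Multiset G) := by
  rw [Multiset.cons_coe, Multiset.coe_eq_coe]
  have : (p ++ x :: q).Perm (x :: q ++ p) := List.perm_append_comm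
  simpa using this

section grp
variable [Group G]

/-- the sum of the values of `φ` on the products of the words -/
def total (φ : G → ℝ) (W : Multiset (List G)) : ℝ :=
  (W.map (fun w : List G => φ w.prod)).sum

@[simp] theorem total_zero (φ : G → ℝ) : total φ (0 : Multiset (List G)) = 0 := by simp [total]
@[simp] theorem total_cons (φ : G → ℝ) (w : List G) (W : Multiset (List G)) :
    total φ (w ::ₘ W) = φ w.prod + total φ W := by simp [total]

variable {φ : G → ℝ} {D : ℝ}

theorem phi_rot (hq : ∀ g h : G, |φ (g * h) - φ g - φ h| ≤ D)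
    (hh : ∀ (g : G) (n : ℕ), φ (g ^ n) = (n : ℝ) * φ g) (p q : List G) (x : G) :
    φ (p ++ x :: q).prod = φ (x * (q ++ p).prod) := by
  rw [List.prod_append, List.prod_cons, List.prod_append, ← mul_assoc x,
    phi_comm hq hh p.prod]

/-- sum over the letters of a nonempty word -/
theorem word_bound (hq : ∀ g h : G, |φ (g * h) - φ g - φ h| ≤ D) (x : G) (w : List G) :
    vsum φ ((x :: w : List G) : Multiset G) ≤ φ (x :: w).prod + D * w.length := by
  induction w generalizing x with
  | nil => simp [vsum]
  | cons y w ih =>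
    rw [vsum_coe_cons]
    have h1 := ih y
    have h2 := (abs_le.mp (hq x (y :: w).prod)).1
    rw [List.prod_cons (a := x)]
    push_cast [List.length_cons]
    linarith

theorem base_bound (hq : ∀ g h : G, |φ (g * h) - φ g - φ h| ≤ D)
    (h1 : φ 1 = 0) (W : Multiset (List G)) :
    vsum φ (content W) ≤ total φ W + D * (content W).card ∧
    (content W ≠ 0 → vsum φ (content W) ≤ total φ W + D * ((content W).card - 1)) := by
  have hD : 0 ≤ D := D_nonneg hq
  induction W using Multiset.induction_on with
  | empty => simp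
  | cons w W ih =>
    cases w with
    | nil =>
      simp only [content_cons, total_cons, List.prod_nil, h1, zero_add, Multiset.coe_nil]
      exact ih
    | cons x w =>
      have hb := word_bound hq x w
      have key : vsum φ (content ((x :: w) ::ₘ W)) ≤
          total φ ((x :: w) ::ₘ W) + D * ((content ((x :: w) ::ₘ W)).card - 1) := by
        rw [content_cons, total_cons, vsum_add, Multiset.card_add, Multiset.coe_card,
          List.length_cons]
        push_cast
        have := ih.1
        have e : D * ((w.length : ℝ) + 1 + (content W).card - 1) =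
          D * w.length + D * (content W).card := by ring
        rw [e]
        linarith
      refine ⟨?_, fun _ => key⟩
      have : D * (((content ((x :: w) ::ₘ W)).card : ℝ) - 1) ≤
        D * ((content ((x :: w) ::ₘ W)).card : ℝ) :=
        mul_le_mul_of_nonneg_left (by linarith) hD
      linarith

/-- the gluing bound -/
theorem glue_bound (hq : ∀ g h : G, |φ (g * h) - φ g - φ h| ≤ D)
    (hh : ∀ (g : G) (n : ℕ), φ (g ^ n) = (n : ℝ) * φ g) (P : Multiset G) :
    ∀ (W : Multiset (List G)) (U : Multiset G), U ≠ 0 →
      content W = U + P + P.map (fun x => x⁻¹) →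
      vsum φ U ≤ total φ W + D * (P.card + U.card - 1) := by
  induction P using Multiset.induction_on with
  | empty =>
    intro W U hU hc
    simp only [Multiset.map_zero, add_zero] at hc
    have := (base_bound hq (phi_one hh) W).2 (by rw [hc]; exact hU)
    rw [hc] at this
    simpa using this
  | cons x P ih =>
    intro W U hU hc
    have hx : x ∈ content W := by rw [hc]; simp
    obtain ⟨p, q, W', rfl⟩ := exists_word hx
    rw [content_cons, coe_mid] at hc
    have hc2 : ((q ++ p : List G) : Multiset G) + content W' =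
        U + P + P.map (fun x => x⁻¹) + {x⁻¹} := by
      have : x ::ₘ (((q ++ p : List G) : Multiset G) + content W') =
          x ::ₘ (U + P + P.map (fun x => x⁻¹) + {x⁻¹}) := by
        rw [← Multiset.cons_add, hc, Multiset.map_cons]
        simp only [← Multiset.singleton_add]
        abel
      exact (Multiset.cons_inj_right x).mp this
    rw [total_cons, phi_rot hq hh]
    have hx' : x⁻¹ ∈ ((q ++ p : List G) : Multiset G) + content W' := by rw [hc2]; simp
    rw [Multiset.mem_add] at hx'
    rw [Multiset.card_cons]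
    rcases hx' with hx' | hx'
    · rw [Multiset.mem_coe] at hx'
      obtain ⟨a, b, hab⟩ := List.append_of_mem hx'
      rw [hab] at hc2 ⊢
      have hc3 : content (a ::ₘ b ::ₘ W') = U + P + P.map (fun x => x⁻¹) := by
        rw [coe_mid, ← Multiset.coe_add] at hc2
        have : {x⁻¹} + content (a ::ₘ b ::ₘ W') =
            {x⁻¹} + (U + P + P.map (fun x => x⁻¹)) := by
          rw [add_comm {x⁻¹} (U + P + P.map (fun x => x⁻¹)), ← hc2, content_cons, content_cons]
          simp only [← Multiset.singleton_add]
          abel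
        exact add_left_cancel this
      have h1 := ih _ U hU hc3
      rw [total_cons, total_cons] at h1
      have h2 := glue_one hq hh x a.prod b.prod
      rw [List.prod_append, List.prod_cons]
      push_cast
      linarith
    · obtain ⟨a, b, W'', rfl⟩ := exists_word hx'
      have hc3 : content (((q ++ p) ++ (b ++ a)) ::ₘ W'') = U + P + P.map (fun x => x⁻¹) := by
        rw [content_cons, coe_mid] at hc2
        have : {x⁻¹} + content (((q ++ p) ++ (b ++ a)) ::ₘ W'') =
            {x⁻¹} + (U + P + P.map (fun x => x⁻¹)) := by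
          rw [add_comm {x⁻¹} (U + P + P.map (fun x => x⁻¹)), ← hc2, content_cons]
          simp only [← Multiset.singleton_add, ← Multiset.coe_add]
          abel
        exact add_left_cancel this
      have h1 := ih _ U hU hc3
      rw [total_cons] at h1
      rw [total_cons, phi_rot hq hh]
      have h2 := glue_two hq hh x (q ++ p).prod (b ++ a).prod
      rw [List.prod_append (l₁ := q ++ p)] at h1
      push_cast
      linarith

/-- either a pairing splits along a sum of multisets, or some pair crosses -/
theorem split_or_cross (P : Multiset G) :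
    ∀ (A B U : Multiset G), A + B = U + P + P.map (fun x => x⁻¹) →
      (∃ U₁ U₂ P₁ P₂ : Multiset G, A = U₁ + P₁ + P₁.map (fun x => x⁻¹) ∧
        B = U₂ + P₂ + P₂.map (fun x => x⁻¹) ∧ U = U₁ + U₂ ∧ P.card = P₁.card + P₂.card) ∨
      (∃ (y : G) (A' B' P' : Multiset G), A = y ::ₘ A' ∧ B = y⁻¹ ::ₘ B' ∧
        P.card = P'.card + 1 ∧ A' + B' = U + P' + P'.map (fun x => x⁻¹)) := by
  induction P using Multiset.induction_on with
  | empty =>
    intro A B U h
    left
    refine ⟨A, B, 0, 0, by simp, by simp, ?_, by simp⟩
    simpa using h.symm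
  | cons x P ih =>
    intro A B U h
    have h0 : A + B = {x} + {x⁻¹} + (U + P + P.map (fun x => x⁻¹)) := by
      rw [h, Multiset.map_cons]
      simp only [← Multiset.singleton_add]
      abel
    have hx : x ∈ A + B := by rw [h0]; simp
    rw [Multiset.mem_add] at hx
    -- treat one letter and its inverse in the same part
    have same : ∀ A₀ B₀ : Multiset G, A₀ + B₀ = U + P + P.map (fun x => x⁻¹) →
        (A = x ::ₘ x⁻¹ ::ₘ A₀ ∧ B = B₀ ∨ A = A₀ ∧ B = x ::ₘ x⁻¹ ::ₘ B₀) →
      (∃ U₁ U₂ P₁ P₂ : Multiset G, A = U₁ + P₁ + P₁.map (fun x => x⁻¹) ∧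
        B = U₂ + P₂ + P₂.map (fun x => x⁻¹) ∧ U = U₁ + U₂ ∧
          (x ::ₘ P).card = P₁.card + P₂.card) ∨
      (∃ (y : G) (A' B' P' : Multiset G), A = y ::ₘ A' ∧ B = y⁻¹ ::ₘ B' ∧
        (x ::ₘ P).card = P'.card + 1 ∧ A' + B' = U + P' + P'.map (fun x => x⁻¹)) := by
      intro A₀ B₀ h1 h2
      rcases ih A₀ B₀ U h1 with ⟨U₁, U₂, P₁, P₂, hA, hB, hU, hP⟩ | ⟨y, A', B', P', hA, hB, hP, hAB⟩
      · left
        rcases h2 with ⟨hA', hB'⟩ | ⟨hA', hB'⟩
        · refine ⟨U₁, U₂, x ::ₘ P₁, P₂, ?_, by rw [hB', hB], hU, ?_⟩
          · rw [hA', hA, Multiset.map_cons]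
            simp only [← Multiset.singleton_add]
            abel
          · rw [Multiset.card_cons, Multiset.card_cons, hP]; ring
        · refine ⟨U₁, U₂, P₁, x ::ₘ P₂, by rw [hA', hA], ?_, hU, ?_⟩
          · rw [hB', hB, Multiset.map_cons]
            simp only [← Multiset.singleton_add]
            abel
          · rw [Multiset.card_cons, Multiset.card_cons, hP]; ring
      · right
        rcases h2 with ⟨hA', hB'⟩ | ⟨hA', hB'⟩
        · refine ⟨y, x ::ₘ x⁻¹ ::ₘ A', B', x ::ₘ P', ?_, by rw [hB', hB], ?_, ?_⟩
          · rw [hA', hA]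
            simp only [← Multiset.singleton_add]
            abel
          · rw [Multiset.card_cons, Multiset.card_cons, hP]
          · rw [Multiset.map_cons]
            have : {x} + {x⁻¹} + (A' + B') = {x} + {x⁻¹} + (U + P' + P'.map (fun x => x⁻¹)) := by
              rw [hAB]
            simp only [← Multiset.singleton_add] at this ⊢
            calc _ = {x} + {x⁻¹} + (A' + B') := by abel
              _ = _ := this
              _ = _ := by abel
        · refine ⟨y, A', x ::ₘ x⁻¹ ::ₘ B', x ::ₘ P', by rw [hA', hA], ?_, ?_, ?_⟩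
          · rw [hB', hB]
            simp only [← Multiset.singleton_add]
            abel
          · rw [Multiset.card_cons, Multiset.card_cons, hP]
          · rw [Multiset.map_cons]
            have : {x} + {x⁻¹} + (A' + B') = {x} + {x⁻¹} + (U + P' + P'.map (fun x => x⁻¹)) := by
              rw [hAB]
            simp only [← Multiset.singleton_add] at this ⊢
            calc _ = {x} + {x⁻¹} + (A' + B') := by abel
              _ = _ := this
              _ = _ := by abel
    rcases hx with hx | hx
    · obtain ⟨A₀, rfl⟩ := Multiset.exists_cons_of_mem hx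
      have h3 : A₀ + B = {x⁻¹} + (U + P + P.map (fun x => x⁻¹)) := by
        have : {x} + (A₀ + B) = {x} + ({x⁻¹} + (U + P + P.map (fun x => x⁻¹))) := by
          rw [← add_assoc, Multiset.singleton_add, h0, add_assoc]
        exact add_left_cancel this
      have hy : x⁻¹ ∈ A₀ + B := by rw [h3]; simp
      rw [Multiset.mem_add] at hy
      rcases hy with hy | hy
      · obtain ⟨A₁, rfl⟩ := Multiset.exists_cons_of_mem hy
        refine same A₁ B ?_ (Or.inl ⟨rfl, rfl⟩)
        have : {x⁻¹} + (A₁ + B) = {x⁻¹} + (U + P + P.map (fun x => x⁻¹)) := by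
          rw [← h3, ← add_assoc, Multiset.singleton_add]
        exact add_left_cancel this
      · obtain ⟨B₁, rfl⟩ := Multiset.exists_cons_of_mem hy
        right
        refine ⟨x, A₀, B₁, P, rfl, rfl, by simp, ?_⟩
        have : {x⁻¹} + (A₀ + B₁) = {x⁻¹} + (U + P + P.map (fun x => x⁻¹)) := by
          rw [← h3]
          simp only [← Multiset.singleton_add]
          abel
        exact add_left_cancel this
    · obtain ⟨B₀, rfl⟩ := Multiset.exists_cons_of_mem hx
      have h3 : A + B₀ = {x⁻¹} + (U + P + P.map (fun x => x⁻¹)) := by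
        have : {x} + (A + B₀) = {x} + ({x⁻¹} + (U + P + P.map (fun x => x⁻¹))) := by
          calc {x} + (A + B₀) = A + x ::ₘ B₀ := by
                simp only [← Multiset.singleton_add]; abel
            _ = _ := by rw [h0, add_assoc]
        exact add_left_cancel this
      have hy : x⁻¹ ∈ A + B₀ := by rw [h3]; simp
      rw [Multiset.mem_add] at hy
      rcases hy with hy | hy
      · obtain ⟨A₁, rfl⟩ := Multiset.exists_cons_of_mem hy
        right
        refine ⟨x⁻¹, A₁, B₀, P, rfl, by rw [inv_inv], by simp, ?_⟩
        have : {x⁻¹} + (A₁ + B₀) = {x⁻¹} + (U + P + P.map (fun x => x⁻¹)) := by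
          rw [← h3, ← add_assoc, Multiset.singleton_add]
        exact add_left_cancel this
      · obtain ⟨B₁, rfl⟩ := Multiset.exists_cons_of_mem hy
        refine same A B₁ ?_ (Or.inr ⟨rfl, rfl⟩)
        have : {x⁻¹} + (A + B₁) = {x⁻¹} + (U + P + P.map (fun x => x⁻¹)) := by
          rw [← h3]
          simp only [← Multiset.singleton_add]
          abel
        exact add_left_cancel this

/-- the bound for a system of words with trivial product -/
theorem poly_bound (hq : ∀ g h : G, |φ (g * h) - φ g - φ h| ≤ D)
    (hh : ∀ (g : G) (n : ℕ), φ (g ^ n) = (n : ℝ) * φ g) (N : ℕ) :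
    ∀ (R : Multiset (List G)) (U P : Multiset G), R.card = N →
      (∀ w ∈ R, w.prod = 1 ∧ 2 ≤ w.length) →
      content R = U + P + P.map (fun x => x⁻¹) →
      vsum φ U ≤ D * ((U.card : ℝ) + P.card - N) := by
  have hD : 0 ≤ D := D_nonneg hq
  induction N with
  | zero =>
    intro R U P hR _ hc
    rw [Multiset.card_eq_zero] at hR
    subst hR
    rw [content_zero] at hc
    have h1 : (U + P + P.map (fun x => x⁻¹)).card = 0 := by rw [← hc]; simp
    rw [Multiset.card_add, Multiset.card_add, Multiset.card_map] at h1
    have hU : U = 0 := Multiset.card_eq_zero.mp (by omega)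
    have hP : P = 0 := Multiset.card_eq_zero.mp (by omega)
    subst hU hP
    simp
  | succ N ih =>
    intro R U P hR hw hc
    obtain ⟨w, R', rfl⟩ : ∃ w R', R = w ::ₘ R' := by
      obtain ⟨w, hw⟩ := Multiset.card_pos_iff_exists_mem.mp (by rw [hR]; omega : 0 < R.card)
      obtain ⟨R', h⟩ := Multiset.exists_cons_of_mem hw
      exact ⟨w, R', h⟩
    rw [Multiset.card_cons] at hR
    have hR' : R'.card = N := by omega
    have hww := hw w (Multiset.mem_cons_self _ _)
    rw [content_cons] at hc
    rcases split_or_cross P _ _ U hc with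
      ⟨U₁, U₂, P₁, P₂, hA, hB, hU, hP⟩ | ⟨y, A', B', P', hA, hB, hP, hAB⟩
    · have h2 := ih R' U₂ P₂ hR' (fun v hv => hw v (Multiset.mem_cons_of_mem hv)) hB
      have h1 : vsum φ U₁ ≤ D * (P₁.card + U₁.card - 1) := by
        by_cases hU1 : U₁ = 0
        · subst hU1
          have hl : w.length = P₁.card + P₁.card := by
            have := congrArg Multiset.card hA
            simpa using this
          have hP1 : 1 ≤ P₁.card := by have := hww.2; omega
          have : (1 : ℝ) ≤ P₁.card := by exact_mod_cast hP1
          have h4 : 0 ≤ D * ((P₁.card : ℝ) - 1) := mul_nonneg hD (by linarith)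
          simpa using h4
        · have := glue_bound hq hh P₁ {w} U₁ hU1 (by
            have : content ({w} : Multiset (List G)) = (w : Multiset G) := by
              rw [← Multiset.cons_zero, content_cons, content_zero, add_zero]
            rw [this, hA])
          have e : total φ ({w} : Multiset (List G)) = 0 := by
            rw [← Multiset.cons_zero, total_cons, total_zero, hww.1, phi_one hh, add_zero]
          rw [e] at this
          linarith
      rw [hU, vsum_add, Multiset.card_add, hP]
      push_cast
      have e : D * ((U₁.card : ℝ) + U₂.card + (P₁.card + P₂.card) - (N + 1)) =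
        D * (P₁.card + U₁.card - 1) + D * ((U₂.card : ℝ) + P₂.card - N) := by ring
      rw [e]
      linarith
    · have hy : y ∈ w := by
        have : y ∈ (w : Multiset G) := by rw [hA]; simp
        simpa using this
      obtain ⟨p, q, rfl⟩ := List.append_of_mem hy
      have hy' : y⁻¹ ∈ content R' := by rw [hB]; simp
      obtain ⟨a, b, R'', rfl⟩ := exists_word hy'
      have hw2 := hw (a ++ y⁻¹ :: b) (Multiset.mem_cons_of_mem (Multiset.mem_cons_self _ _))
      have hA' : A' = ((q ++ p : List G) : Multiset G) := by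
        rw [coe_mid] at hA
        exact ((Multiset.cons_inj_right y).mp hA).symm
      have hB' : B' = ((b ++ a : List G) : Multiset G) + content R'' := by
        rw [content_cons, coe_mid, Multiset.cons_add] at hB
        exact ((Multiset.cons_inj_right y⁻¹).mp hB).symm
      have h1 := ih (((q ++ p) ++ (b ++ a)) ::ₘ R'') U P' (by simpa using hR') (by
        intro v hv
        rw [Multiset.mem_cons] at hv
        rcases hv with rfl | hv
        · constructor
          · have h1 := hww.1
            have h2 := hw2.1
            rw [List.prod_append, List.prod_cons] at h1 h2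
            have e1 : q.prod * p.prod = y⁻¹ := by
              have : p.prod * (y * q.prod) = 1 := h1
              have h3 : p.prod = (y * q.prod)⁻¹ := eq_inv_of_mul_eq_one_left this
              rw [h3]; group
            have e2 : b.prod * a.prod = y := by
              have h3 : a.prod = (y⁻¹ * b.prod)⁻¹ := eq_inv_of_mul_eq_one_left h2
              rw [h3]; group
            rw [List.prod_append, List.prod_append, List.prod_append, e1, e2, inv_mul_cancel]
          · have h1 := hww.2
            have h2 := hw2.2
            simp only [List.length_append, List.length_cons] at h1 h2 ⊢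
            omega
        · exact hw v (Multiset.mem_cons_of_mem (Multiset.mem_cons_of_mem hv))) (by
        rw [content_cons, ← hAB, hA', hB', ← Multiset.coe_add (q ++ p), add_assoc])
      rw [hP]
      push_cast
      linarith

end grp

end words

end Pool.Agent.MP67f4ab
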