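import Mathlib
import Pool.Agent.MP67f4ab.Basic

set_option autoImplicit false

namespace Pool.Agent.MP67f4ab

open Multiset

section chains
variable {G : Type*} [Group G] {φ : G → ℝ} {D : ℝ}

/-- positive letters of a signed triangle -/
def posL (t : Bool × G × G) : Multiset G :=
  if t.1 then t.2.1 ::ₘ t.2.2 ::ₘ 0 else (t.2.1 * t.2.2) ::ₘ 0

/-- negative letters of a signed triangle -/
def negL (t : Bool × G × G) : Multiset G :=
  if t.1 then (t.2.1 * t.2.2) ::ₘ 0 else t.2.1 ::ₘ t.2.2 ::ₘ 0

/-- the boundary word of a signed triangle -/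
def tri (t : Bool × G × G) : List G :=
  if t.1 then [t.2.1, t.2.2, (t.2.1 * t.2.2)⁻¹] else [t.2.1 * t.2.2, t.2.2⁻¹, t.2.1⁻¹]

theorem tri_prod (t : Bool × G × G) : (tri t).prod = 1 := by
  unfold tri
  split_ifs
  · simp
  · simp [mul_assoc]

theorem tri_length (t : Bool × G × G) : (tri t).length = 3 := by
  unfold tri
  split_ifs <;> simp

theorem tri_coe (t : Bool × G × G) :
    (tri t : Multiset G) = posL t + (negL t).map (fun x => x⁻¹) := by
  unfold tri posL negL
  split_ifs
  · simp only [← Multiset.cons_coe, Multiset.map_cons, Multiset.map_zero, Multiset.coe_nil,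
      Multiset.cons_add, zero_add]
  · simp only [← Multiset.cons_coe, Multiset.map_cons, Multiset.map_zero, Multiset.coe_nil,
      Multiset.cons_add, zero_add]
    rw [Multiset.cons_swap (t.2.2⁻¹)]

theorem vsum_map_inv (hi : ∀ g, φ g⁻¹ = - φ g) (U : Multiset G) :
    vsum φ (U.map (fun x => x⁻¹)) = - vsum φ U := by
  induction U using Multiset.induction_on with
  | empty => simp
  | cons x U ih => rw [Multiset.map_cons, vsum_cons, vsum_cons, ih, hi]; ring

omit [Group G] in
theorem vsum_sum {κ : Type*} (J : Finset κ) (n : κ → ℕ) (M : κ → Multiset G) :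
    vsum φ (∑ j ∈ J, n j • M j) = ∑ j ∈ J, (n j : ℝ) * vsum φ (M j) := by
  classical
  induction J using Finset.induction_on with
  | empty => simp
  | insert a J ha ih =>
    rw [Finset.sum_insert ha, Finset.sum_insert ha, vsum_add, ih]
    congr 1
    unfold vsum
    rw [Multiset.map_nsmul, Multiset.sum_nsmul, nsmul_eq_mul]

theorem content_sum {κ : Type*} (J : Finset κ) (n : κ → ℕ) (τ : κ → Bool × G × G) :
    content (∑ j ∈ J, n j • ({tri (τ j)} : Multiset (List G))) =
      ∑ j ∈ J, n j • posL (τ j) + (∑ j ∈ J, n j • negL (τ j)).map (fun x => x⁻¹) := by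
  classical
  induction J using Finset.induction_on with
  | empty => simp
  | insert a J ha ih =>
    rw [Finset.sum_insert ha, Finset.sum_insert ha, Finset.sum_insert ha, content_add, ih]
    have : content (n a • ({tri (τ a)} : Multiset (List G))) =
        n a • posL (τ a) + (n a • negL (τ a)).map (fun x => x⁻¹) := by
      unfold content
      rw [Multiset.map_nsmul, Multiset.sum_nsmul, Multiset.map_singleton,
        Multiset.sum_singleton, tri_coe, nsmul_add, Multiset.map_nsmul]
    rw [this, Multiset.map_add]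
    abel

omit [Group G] in
theorem card_eq_sum_count [DecidableEq G] (M : Multiset G) (V : Finset G)
    (h : ∀ x ∈ M, x ∈ V) : M.card = ∑ x ∈ V, M.count x := by
  rw [← Multiset.toFinset_sum_count_eq M]
  apply Finset.sum_subset
  · intro x hx
    exact h x (Multiset.mem_toFinset.mp hx)
  · intro x _ hx
    rw [Multiset.mem_toFinset] at hx
    exact Multiset.count_eq_zero.mpr hx

/-- integral version of the main inequality -/
theorem claim_nat [DecidableEq G] (hq : ∀ g h : G, |φ (g * h) - φ g - φ h| ≤ D)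
    (hh : ∀ (g : G) (n : ℕ), φ (g ^ n) = (n : ℝ) * φ g)
    {κ : Type*} (J : Finset κ) (n : κ → ℕ) (τ : κ → Bool × G × G) (V : Finset G)
    (hV : ∀ j ∈ J, ∀ x ∈ posL (τ j) + negL (τ j), x ∈ V) :
    ∑ j ∈ J, (n j : ℝ) * (vsum φ (posL (τ j)) - vsum φ (negL (τ j))) ≤
      D / 2 * (∑ j ∈ J, (n j : ℝ) +
        ∑ x ∈ V, |∑ j ∈ J, (n j : ℝ) * (((posL (τ j)).count x : ℝ) - (negL (τ j)).count x)|) := by
  set X : Multiset G := ∑ j ∈ J, n j • posL (τ j) with hX
  set Y : Multiset G := ∑ j ∈ J, n j • negL (τ j) with hY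
  set R : Multiset (List G) := ∑ j ∈ J, n j • ({tri (τ j)} : Multiset (List G)) with hR
  have hXV : ∀ x ∈ X, x ∈ V := by
    intro x hx
    rw [hX, Multiset.mem_sum] at hx
    obtain ⟨j, hj, hx⟩ := hx
    exact hV j hj x (Multiset.mem_add.mpr (Or.inl (Multiset.mem_of_mem_nsmul hx)))
  have hYV : ∀ x ∈ Y, x ∈ V := by
    intro x hx
    rw [hY, Multiset.mem_sum] at hx
    obtain ⟨j, hj, hx⟩ := hx
    exact hV j hj x (Multiset.mem_add.mpr (Or.inr (Multiset.mem_of_mem_nsmul hx)))
  set P : Multiset G := X ∩ Y with hP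
  set U : Multiset G := (X - Y) + (Y - X).map (fun x => x⁻¹) with hU
  have hXd : X - Y + P = X := Multiset.sub_add_inter X Y
  have hYd : Y - X + P = Y := by
    rw [hP, Multiset.inter_comm]; exact Multiset.sub_add_inter Y X
  have hcR : content R = U + P + P.map (fun x => x⁻¹) := by
    rw [hR, content_sum, ← hX, ← hY]
    calc X + Y.map (fun x => x⁻¹) = (X - Y + P) + (Y - X + P).map (fun x => x⁻¹) := by
          rw [hXd, hYd]
      _ = _ := by
          have aux : ∀ a b c d : Multiset G, a + b + (c + d) = a + c + b + d := by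
            intro a b c d
            abel
          rw [Multiset.map_add, hU]
          exact aux _ _ _ _
  have hwR : ∀ w ∈ R, w.prod = 1 ∧ 2 ≤ w.length := by
    intro w hw
    rw [hR, Multiset.mem_sum] at hw
    obtain ⟨j, _, hw⟩ := hw
    have := Multiset.mem_of_mem_nsmul hw
    rw [Multiset.mem_singleton] at this
    subst this
    exact ⟨tri_prod _, by rw [tri_length]; norm_num⟩
  have hcard : R.card = ∑ j ∈ J, n j := by
    rw [hR, Multiset.card_sum]
    apply Finset.sum_congr rfl
    intro j _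
    rw [Multiset.card_nsmul, Multiset.card_singleton, mul_one]
  have hcard3 : (content R).card = 3 * R.card := by
    have gen : ∀ S : Multiset (List G), (∀ w ∈ S, w.length = 3) → (content S).card = 3 * S.card := by
      intro S
      induction S using Multiset.induction_on with
      | empty => intro _; simp
      | cons w S ih =>
        intro hS
        rw [content_cons, Multiset.card_add, Multiset.coe_card, Multiset.card_cons,
          ih (fun v hv => hS v (Multiset.mem_cons_of_mem hv)),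
          hS w (Multiset.mem_cons_self _ _)]
        ring
    apply gen
    intro w hw
    rw [hR, Multiset.mem_sum] at hw
    obtain ⟨j, _, hw⟩ := hw
    have := Multiset.mem_of_mem_nsmul hw
    rw [Multiset.mem_singleton] at this
    subst this
    exact tri_length _
  have main := poly_bound hq hh R.card R U P rfl hwR hcR
  have hc2 : 3 * R.card = U.card + 2 * P.card := by
    rw [← hcard3, hcR, Multiset.card_add, Multiset.card_add, Multiset.card_map]
    ring
  have hc2' : (3 : ℝ) * R.card = U.card + 2 * P.card := by exact_mod_cast hc2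
  have hUv : vsum φ U = vsum φ X - vsum φ Y := by
    have h1 : vsum φ X = vsum φ (X - Y) + vsum φ P := by rw [← vsum_add, hXd]
    have h2 : vsum φ Y = vsum φ (Y - X) + vsum φ P := by rw [← vsum_add, hYd]
    rw [h1, h2, hU, vsum_add, vsum_map_inv (phi_inv hq hh)]
    ring
  have hUc : (U.card : ℝ) = ∑ x ∈ V, |(X.count x : ℝ) - Y.count x| := by
    rw [hU, Multiset.card_add, Multiset.card_map,
      card_eq_sum_count (X - Y) V (fun x hx => hXV x (Multiset.mem_of_le (Multiset.sub_le_self _ _) hx)),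
      card_eq_sum_count (Y - X) V (fun x hx => hYV x (Multiset.mem_of_le (Multiset.sub_le_self _ _) hx))]
    push_cast
    rw [← Finset.sum_add_distrib]
    apply Finset.sum_congr rfl
    intro x _
    rw [Multiset.count_sub, Multiset.count_sub]
    rcases le_total (X.count x) (Y.count x) with h | h
    · rw [Nat.sub_eq_zero_of_le h, Nat.cast_sub h, abs_of_nonpos (by
        have : (X.count x : ℝ) ≤ Y.count x := by exact_mod_cast h
        linarith)]
      push_cast
      ring
    · rw [Nat.sub_eq_zero_of_le h, Nat.cast_sub h, abs_of_nonneg (by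
        have : (Y.count x : ℝ) ≤ X.count x := by exact_mod_cast h
        linarith)]
      push_cast
      ring
  have hcX : ∀ x, (X.count x : ℝ) = ∑ j ∈ J, (n j : ℝ) * ((posL (τ j)).count x : ℝ) := by
    intro x
    rw [hX, Multiset.count_sum']
    push_cast
    apply Finset.sum_congr rfl
    intro j _
    rw [Multiset.count_nsmul]
    push_cast
    ring
  have hcY : ∀ x, (Y.count x : ℝ) = ∑ j ∈ J, (n j : ℝ) * ((negL (τ j)).count x : ℝ) := by
    intro x
    rw [hY, Multiset.count_sum']
    push_cast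
    apply Finset.sum_congr rfl
    intro j _
    rw [Multiset.count_nsmul]
    push_cast
    ring
  have e1 : ∑ j ∈ J, (n j : ℝ) * (vsum φ (posL (τ j)) - vsum φ (negL (τ j))) =
      vsum φ X - vsum φ Y := by
    rw [hX, hY, vsum_sum, vsum_sum, ← Finset.sum_sub_distrib]
    apply Finset.sum_congr rfl
    intro j _
    ring
  have e2 : ∑ x ∈ V, |∑ j ∈ J, (n j : ℝ) * (((posL (τ j)).count x : ℝ) - (negL (τ j)).count x)| =
      (U.card : ℝ) := by
    rw [hUc]
    apply Finset.sum_congr rfl
    intro x _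
    rw [hcX, hcY, ← Finset.sum_sub_distrib]
    congr 1
    apply Finset.sum_congr rfl
    intro j _
    ring
  have e3 : ∑ j ∈ J, (n j : ℝ) = R.card := by rw [hcard]; push_cast; rfl
  rw [e1, e2, e3, ← hUv]
  have e4 : D / 2 * ((R.card : ℝ) + U.card) = D * ((U.card : ℝ) + P.card - R.card) := by
    have : (P.card : ℝ) = (3 * R.card - U.card) / 2 := by linarith
    rw [this]; ring
  rw [e4]
  exact main

/-- version with nonnegative real weights -/
theorem claim_real [DecidableEq G] (hq : ∀ g h : G, |φ (g * h) - φ g - φ h| ≤ D)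
    (hh : ∀ (g : G) (n : ℕ), φ (g ^ n) = (n : ℝ) * φ g)
    {κ : Type*} (J : Finset κ) (a : κ → ℝ) (ha : ∀ j, 0 ≤ a j) (τ : κ → Bool × G × G)
    (V : Finset G) (hV : ∀ j ∈ J, ∀ x ∈ posL (τ j) + negL (τ j), x ∈ V) :
    ∑ j ∈ J, a j * (vsum φ (posL (τ j)) - vsum φ (negL (τ j))) ≤
      D / 2 * (∑ j ∈ J, a j +
        ∑ x ∈ V, |∑ j ∈ J, a j * (((posL (τ j)).count x : ℝ) - (negL (τ j)).count x)|) := by
  have ht : ∀ j, Filter.Tendsto (fun k : ℝ => (⌊a j * k⌋₊ : ℝ) / k) Filter.atTop (nhds (a j)) :=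
    fun j => tendsto_nat_floor_mul_div_atTop (ha j)
  have hL : Filter.Tendsto (fun k : ℝ => ∑ j ∈ J, ((⌊a j * k⌋₊ : ℝ) / k) *
      (vsum φ (posL (τ j)) - vsum φ (negL (τ j)))) Filter.atTop
      (nhds (∑ j ∈ J, a j * (vsum φ (posL (τ j)) - vsum φ (negL (τ j))))) :=
    tendsto_finsetSum _ fun j _ => (ht j).mul_const _
  have hR : Filter.Tendsto (fun k : ℝ => D / 2 * (∑ j ∈ J, ((⌊a j * k⌋₊ : ℝ) / k) +
        ∑ x ∈ V, |∑ j ∈ J, ((⌊a j * k⌋₊ : ℝ) / k) *
          (((posL (τ j)).count x : ℝ) - (negL (τ j)).count x)|)) Filter.atTop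
      (nhds (D / 2 * (∑ j ∈ J, a j +
        ∑ x ∈ V, |∑ j ∈ J, a j * (((posL (τ j)).count x : ℝ) - (negL (τ j)).count x)|))) := by
    apply Filter.Tendsto.const_mul
    apply Filter.Tendsto.add
    · exact tendsto_finsetSum _ fun j _ => ht j
    · apply tendsto_finsetSum
      intro x _
      apply Filter.Tendsto.abs
      exact tendsto_finsetSum _ fun j _ => (ht j).mul_const _
  refine le_of_tendsto_of_tendsto hL hR ?_
  filter_upwards [Filter.eventually_gt_atTop (0 : ℝ)] with k hk
  have := claim_nat hq hh J (fun j => ⌊a j * k⌋₊) τ V hV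
  have e1 : ∑ j ∈ J, ((⌊a j * k⌋₊ : ℝ) / k) * (vsum φ (posL (τ j)) - vsum φ (negL (τ j))) =
      (1 / k) * ∑ j ∈ J, (⌊a j * k⌋₊ : ℝ) * (vsum φ (posL (τ j)) - vsum φ (negL (τ j))) := by
    rw [Finset.mul_sum]
    apply Finset.sum_congr rfl
    intro j _
    ring
  have e2 : D / 2 * (∑ j ∈ J, ((⌊a j * k⌋₊ : ℝ) / k) +
        ∑ x ∈ V, |∑ j ∈ J, ((⌊a j * k⌋₊ : ℝ) / k) *
          (((posL (τ j)).count x : ℝ) - (negL (τ j)).count x)|) =
      (1 / k) * (D / 2 * (∑ j ∈ J, (⌊a j * k⌋₊ : ℝ) +
        ∑ x ∈ V, |∑ j ∈ J, (⌊a j * k⌋₊ : ℝ) *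
          (((posL (τ j)).count x : ℝ) - (negL (τ j)).count x)|)) := by
    have f1 : ∑ j ∈ J, ((⌊a j * k⌋₊ : ℝ) / k) = (1 / k) * ∑ j ∈ J, (⌊a j * k⌋₊ : ℝ) := by
      rw [Finset.mul_sum]
      apply Finset.sum_congr rfl
      intro j _
      ring
    have f2 : ∑ x ∈ V, |∑ j ∈ J, ((⌊a j * k⌋₊ : ℝ) / k) *
          (((posL (τ j)).count x : ℝ) - (negL (τ j)).count x)| =
        (1 / k) * ∑ x ∈ V, |∑ j ∈ J, (⌊a j * k⌋₊ : ℝ) *
          (((posL (τ j)).count x : ℝ) - (negL (τ j)).count x)| := by
      rw [Finset.mul_sum]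
      apply Finset.sum_congr rfl
      intro x _
      have hk' : (1 / k) = |1 / k| := (abs_of_pos (by positivity)).symm
      conv_rhs => rw [hk']
      rw [← abs_mul, Finset.mul_sum]
      congr 1
      apply Finset.sum_congr rfl
      intro j _
      ring
    rw [f1, f2]
    ring
  rw [e1, e2]
  exact mul_le_mul_of_nonneg_left this (by positivity)

end chains

end Pool.Agent.MP67f4ab
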