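import Pool.Agent.MP67f4ab.Main

set_option autoImplicit false

namespace Pool.Agent.MP67f4ab

section lower
variable {G : Type*} [Group G] {φ ψ : G → ℝ} {D E C : ℝ}

/-- a product of two elements, for an antisymmetric function -/
theorem antisymm_tri (hψ : ∀ g h : G, |ψ (g * h) - ψ g - ψ h| ≤ E) (ha : ∀ g, ψ g⁻¹ = - ψ g)
    {x y z : G} (h : x * y * z = 1) : ψ x + ψ y + ψ z ≤ E := by
  have hz : z = (x * y)⁻¹ := by
    rw [eq_comm, inv_eq_iff_mul_eq_one]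
    exact h
  rw [hz, ha]
  have := hψ x y
  have := neg_le_of_abs_le this
  linarith

/-- the two triangles of the ideal triangulation of a pair of pants, twisted by `i` and `j` -/
theorem two_tri (hψ : ∀ g h : G, |ψ (g * h) - ψ g - ψ h| ≤ E) (ha : ∀ g, ψ g⁻¹ = - ψ g)
    (g h : G) (i j : ℕ) :
    (ψ ((g ^ (i + 1))⁻¹ * h ^ (j + 1)) - ψ ((g ^ i)⁻¹ * h ^ (j + 1))) +
      (ψ ((h ^ (j + 1))⁻¹ * (g * h) ^ (j + 1)) - ψ ((h ^ j)⁻¹ * (g * h) ^ j)) ≤ 2 * E := by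
  have h1 : ψ ((g ^ (i + 1))⁻¹ * h ^ (j + 1)) + ψ ((h ^ (j + 1))⁻¹ * (g * h) ^ (j + 1)) +
      ψ (((g * h) ^ (j + 1))⁻¹ * g ^ (i + 1)) ≤ E := by
    apply antisymm_tri hψ ha
    group
  have h2 : ψ ((g ^ (i + 1))⁻¹ * (g * h) ^ (j + 1)) + ψ (((g * h) ^ j)⁻¹ * h ^ j) +
      ψ ((h ^ (j + 1))⁻¹ * g ^ i) ≤ E := by
    apply antisymm_tri hψ ha
    have e1 : (g * h) ^ (j + 1) * ((g * h) ^ j)⁻¹ = g * h := by
      rw [pow_succ', mul_assoc, mul_inv_cancel, mul_one]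
    have e2 : h ^ j * (h ^ (j + 1))⁻¹ = h⁻¹ := by
      rw [pow_succ, mul_inv_rev, ← mul_assoc]
      rw [show h ^ j * h⁻¹ = h⁻¹ * h ^ j from by
        rw [← zpow_natCast, ← zpow_neg_one, ← zpow_add, ← zpow_add, add_comm]]
      rw [mul_assoc, mul_inv_cancel, mul_one]
    calc (g ^ (i + 1))⁻¹ * (g * h) ^ (j + 1) * (((g * h) ^ j)⁻¹ * h ^ j) *
          ((h ^ (j + 1))⁻¹ * g ^ i)
        = (g ^ (i + 1))⁻¹ * ((g * h) ^ (j + 1) * ((g * h) ^ j)⁻¹) * (h ^ j * (h ^ (j + 1))⁻¹) *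
          g ^ i := by simp only [mul_assoc]
      _ = (g ^ (i + 1))⁻¹ * (g * h) * h⁻¹ * g ^ i := by rw [e1, e2]
      _ = (g ^ (i + 1))⁻¹ * (g * g ^ i) := by simp only [mul_assoc, mul_inv_cancel_left]
      _ = 1 := by rw [← pow_succ', inv_mul_cancel]
  have h3 : ψ (((g * h) ^ (j + 1))⁻¹ * g ^ (i + 1)) =
      - ψ ((g ^ (i + 1))⁻¹ * (g * h) ^ (j + 1)) := by
    rw [← ha]; congr 1; rw [mul_inv_rev, inv_inv]
  have h4 : ψ (((g * h) ^ j)⁻¹ * h ^ j) = - ψ ((h ^ j)⁻¹ * (g * h) ^ j) := by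
    rw [← ha]; congr 1; rw [mul_inv_rev, inv_inv]
  have h5 : ψ ((h ^ (j + 1))⁻¹ * g ^ i) = - ψ ((g ^ i)⁻¹ * h ^ (j + 1)) := by
    rw [← ha]; congr 1; rw [mul_inv_rev, inv_inv]
  linarith

/-- The lower bound, for antisymmetric `ψ`: the defect of `φ` is at most twice that of `ψ`. -/
theorem lower_aux (hq : ∀ g h : G, |φ (g * h) - φ g - φ h| ≤ D)
    (hh : ∀ (g : G) (n : ℕ), φ (g ^ n) = (n : ℝ) * φ g)
    (hψ : ∀ g h : G, |ψ (g * h) - ψ g - ψ h| ≤ E) (ha : ∀ g, ψ g⁻¹ = - ψ g)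
    (hC : ∀ g, |ψ g - φ g| ≤ C) (g h : G) : φ (g * h) - φ g - φ h ≤ 2 * E := by
  -- comparison of `ψ (x⁻¹ y)` with `φ y - φ x`
  have hcmp : ∀ x y : G, |ψ (x⁻¹ * y) - (φ y - φ x)| ≤ C + D := by
    intro x y
    have h1 := hC (x⁻¹ * y)
    have h2 := hq x⁻¹ y
    have h3 := phi_inv hq hh x
    have e : ψ (x⁻¹ * y) - (φ y - φ x) = (ψ (x⁻¹ * y) - φ (x⁻¹ * y)) +
        (φ (x⁻¹ * y) - φ x⁻¹ - φ y) := by rw [h3]; ring
    rw [e]
    exact le_trans (abs_add_le _ _) (add_le_add h1 h2)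
  have key : ∀ n : ℕ, (n : ℝ) * ((φ (g * h) - φ g - φ h) - 2 * E) ≤ 4 * (C + D) := by
    intro n
    rcases Nat.eq_zero_or_pos n with rfl | hn
    · have : 0 ≤ C + D := le_trans (abs_nonneg _) (hcmp 1 1)
      simp
      linarith
    have hn' : (0 : ℝ) < n := by exact_mod_cast hn
    -- double sum
    have hs : ∑ i ∈ Finset.range n, ∑ j ∈ Finset.range n,
        ((ψ ((g ^ (i + 1))⁻¹ * h ^ (j + 1)) - ψ ((g ^ i)⁻¹ * h ^ (j + 1))) +
          (ψ ((h ^ (j + 1))⁻¹ * (g * h) ^ (j + 1)) - ψ ((h ^ j)⁻¹ * (g * h) ^ j))) ≤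
        ∑ i ∈ Finset.range n, ∑ j ∈ Finset.range n, 2 * E :=
      Finset.sum_le_sum fun i _ => Finset.sum_le_sum fun j _ => two_tri hψ ha g h i j
    have e1 : ∑ i ∈ Finset.range n, ∑ j ∈ Finset.range n,
        ((ψ ((g ^ (i + 1))⁻¹ * h ^ (j + 1)) - ψ ((g ^ i)⁻¹ * h ^ (j + 1))) +
          (ψ ((h ^ (j + 1))⁻¹ * (g * h) ^ (j + 1)) - ψ ((h ^ j)⁻¹ * (g * h) ^ j))) =
        (∑ j ∈ Finset.range n, (ψ ((g ^ n)⁻¹ * h ^ (j + 1)) - ψ ((g ^ 0)⁻¹ * h ^ (j + 1)))) +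
          n * (ψ ((h ^ n)⁻¹ * (g * h) ^ n) - ψ ((h ^ 0)⁻¹ * (g * h) ^ 0)) := by
      simp only [Finset.sum_add_distrib]
      congr 1
      · rw [Finset.sum_comm]
        refine Finset.sum_congr rfl fun j _ => ?_
        exact Finset.sum_range_sub (fun i => ψ ((g ^ i)⁻¹ * h ^ (j + 1))) n
      · rw [Finset.sum_const, Finset.card_range, nsmul_eq_mul]
        congr 1
        exact Finset.sum_range_sub (fun j => ψ ((h ^ j)⁻¹ * (g * h) ^ j)) n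
    rw [e1] at hs
    simp only [Finset.sum_const, Finset.card_range, nsmul_eq_mul] at hs
    -- lower bounds for the two parts
    have l1 : ∀ j : ℕ, -(n * φ g) - 2 * (C + D) ≤
        ψ ((g ^ n)⁻¹ * h ^ (j + 1)) - ψ ((g ^ 0)⁻¹ * h ^ (j + 1)) := by
      intro j
      have a1 := hcmp (g ^ n) (h ^ (j + 1))
      have a2 := hcmp (g ^ 0) (h ^ (j + 1))
      rw [hh g n] at a1
      rw [hh g 0] at a2
      have b1 := neg_le_of_abs_le a1
      have b2 := le_of_abs_le a2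
      push_cast at b1 b2
      linarith
    have l2 : n * φ (g * h) - n * φ h - 2 * (C + D) ≤
        ψ ((h ^ n)⁻¹ * (g * h) ^ n) - ψ ((h ^ 0)⁻¹ * (g * h) ^ 0) := by
      have a1 := hcmp (h ^ n) ((g * h) ^ n)
      have a2 := hcmp (h ^ 0) ((g * h) ^ 0)
      rw [hh h n, hh (g * h) n] at a1
      rw [hh h 0, hh (g * h) 0] at a2
      have b1 := neg_le_of_abs_le a1
      have b2 := le_of_abs_le a2
      push_cast at b1 b2
      linarith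
    have s1 : (n : ℝ) * (-(n * φ g) - 2 * (C + D)) ≤
        ∑ j ∈ Finset.range n, (ψ ((g ^ n)⁻¹ * h ^ (j + 1)) - ψ ((g ^ 0)⁻¹ * h ^ (j + 1))) := by
      calc (n : ℝ) * (-(n * φ g) - 2 * (C + D))
          = ∑ j ∈ Finset.range n, (-(n * φ g) - 2 * (C + D)) := by
            rw [Finset.sum_const, Finset.card_range, nsmul_eq_mul]
        _ ≤ _ := Finset.sum_le_sum fun j _ => l1 j
    have s2 : (n : ℝ) * (n * φ (g * h) - n * φ h - 2 * (C + D)) ≤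
        n * (ψ ((h ^ n)⁻¹ * (g * h) ^ n) - ψ ((h ^ 0)⁻¹ * (g * h) ^ 0)) :=
      mul_le_mul_of_nonneg_left l2 hn'.le
    have s3 : (n : ℝ) * ((n : ℝ) * ((φ (g * h) - φ g - φ h) - 2 * E)) ≤ n * (4 * (C + D)) := by
      nlinarith [s1, s2, hs]
    exact le_of_mul_le_mul_left s3 hn'
  have := eq_zero_of_nat_mul_le key
  linarith

/-- The lower bound: if `ψ` is at bounded distance from the homogeneous quasimorphism `φ` and has
defect at most `E`, then the defect of `φ` is at most `2 E`. -/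
theorem lower (hq : ∀ g h : G, |φ (g * h) - φ g - φ h| ≤ D)
    (hh : ∀ (g : G) (n : ℕ), φ (g ^ n) = (n : ℝ) * φ g)
    (hψ : ∀ g h : G, |ψ (g * h) - ψ g - ψ h| ≤ E)
    (hC : ∀ g, |ψ g - φ g| ≤ C) (g h : G) : |φ (g * h) - φ g - φ h| ≤ 2 * E := by
  set χ : G → ℝ := fun x => (ψ x - ψ x⁻¹) / 2 with hχ
  have hχq : ∀ x y : G, |χ (x * y) - χ x - χ y| ≤ E := by
    intro x y
    have h1 := hψ x y
    have h2 := hψ y⁻¹ x⁻¹
    rw [abs_le] at h1 h2 ⊢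
    simp only [hχ, mul_inv_rev]
    constructor <;> linarith [h1.1, h1.2, h2.1, h2.2]
  have hχa : ∀ x : G, χ x⁻¹ = - χ x := by
    intro x
    simp only [hχ, inv_inv]
    ring
  have hχC : ∀ x : G, |χ x - φ x| ≤ C := by
    intro x
    have h1 := hC x
    have h2 := hC x⁻¹
    rw [phi_inv hq hh] at h2
    rw [abs_le] at h1 h2 ⊢
    simp only [hχ]
    constructor <;> linarith [h1.1, h1.2, h2.1, h2.2]
  have up := lower_aux hq hh hχq hχa hχC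
  rw [abs_le]
  refine ⟨?_, up g h⟩
  -- apply the upper bound to `h⁻¹`, `g⁻¹`
  have h1 := up h⁻¹ g⁻¹
  rw [← mul_inv_rev, phi_inv hq hh, phi_inv hq hh, phi_inv hq hh] at h1
  linarith

end lower

end Pool.Agent.MP67f4ab
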