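import Mathlib
import Pool.Agent.MP67f4ab.Chain

set_option autoImplicit false

namespace Pool.Agent.MP67f4ab

section norm1
variable {κ : Type*}

/-- the sum of the absolute values of the coefficients -/
noncomputable def n1 (c : κ →₀ ℝ) : ℝ := c.sum fun _ r => |r|

theorem n1_eq (c : κ →₀ ℝ) (V : Finset κ) (h : c.support ⊆ V) : n1 c = ∑ x ∈ V, |c x| := by
  unfold n1
  exact Finsupp.sum_of_support_subset c h _ (by simp)

theorem n1_add (c d : κ →₀ ℝ) : n1 (c + d) ≤ n1 c + n1 d := by
  classical
  set V := c.support ∪ d.support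
  rw [n1_eq c V Finset.subset_union_left, n1_eq d V Finset.subset_union_right,
    n1_eq (c + d) V Finsupp.support_add, ← Finset.sum_add_distrib]
  apply Finset.sum_le_sum
  intro x _
  rw [Finsupp.add_apply]
  exact abs_add_le _ _

theorem n1_smul (r : ℝ) (c : κ →₀ ℝ) : n1 (r • c) = |r| * n1 c := by
  rw [n1_eq c c.support (Finset.Subset.refl _), n1_eq (r • c) c.support Finsupp.support_smul,
    Finset.mul_sum]
  apply Finset.sum_congr rfl
  intro x _
  rw [Finsupp.smul_apply, smul_eq_mul, abs_mul]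

theorem n1_neg (c : κ →₀ ℝ) : n1 (-c) = n1 c := by
  have := n1_smul (-1) c
  simpa using this

theorem n1_single (x : κ) (r : ℝ) : n1 (Finsupp.single x r) = |r| := by
  unfold n1
  rw [Finsupp.sum_single_index (by simp)]

end norm1

section main
variable {G : Type*} [Group G] {φ : G → ℝ} {D : ℝ}

/-- the boundary of the elementary chain `(g, h)` -/
noncomputable def bd1 (p : G × G) : G →₀ ℝ :=
  Finsupp.single p.1 1 + Finsupp.single p.2 1 - Finsupp.single (p.1 * p.2) 1

/-- the boundary operator -/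
noncomputable def bd : (G × G →₀ ℝ) →ₗ[ℝ] (G →₀ ℝ) := Finsupp.linearCombination ℝ bd1

/-- evaluation of `φ` on chains -/
noncomputable def ev (φ : G → ℝ) : (G →₀ ℝ) →ₗ[ℝ] ℝ := Finsupp.linearCombination ℝ φ

omit [Group G] in
theorem ev_single (x : G) (r : ℝ) : ev φ (Finsupp.single x r) = r * φ x := by
  unfold ev
  rw [Finsupp.linearCombination_single, smul_eq_mul]

theorem ev_bd (A : G × G →₀ ℝ) :
    ev φ (bd A) = ∑ p ∈ A.support, A p * (φ p.1 + φ p.2 - φ (p.1 * p.2)) := by
  unfold bd
  rw [Finsupp.linearCombination_apply, Finsupp.sum, map_sum]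
  apply Finset.sum_congr rfl
  intro p _
  rw [map_smul, smul_eq_mul]
  congr 1
  unfold bd1
  rw [map_sub, map_add, ev_single, ev_single, ev_single]
  ring

theorem bd_apply [DecidableEq G] (A : G × G →₀ ℝ) (x : G) :
    bd A x = ∑ p ∈ A.support, A p * ((if p.1 = x then 1 else 0) + (if p.2 = x then 1 else 0) -
      (if p.1 * p.2 = x then 1 else 0)) := by
  unfold bd
  rw [Finsupp.linearCombination_apply, Finsupp.sum, Finsupp.finsetSum_apply]
  apply Finset.sum_congr rfl
  intro p _
  rw [Finsupp.smul_apply, smul_eq_mul]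
  congr 1
  unfold bd1
  rw [Finsupp.sub_apply, Finsupp.add_apply, Finsupp.single_apply, Finsupp.single_apply,
    Finsupp.single_apply]

/-- the main inequality for real chains -/
theorem chain_ineq (hq : ∀ g h : G, |φ (g * h) - φ g - φ h| ≤ D)
    (hh : ∀ (g : G) (n : ℕ), φ (g ^ n) = (n : ℝ) * φ g) (A : G × G →₀ ℝ) :
    ev φ (bd A) ≤ D / 2 * (n1 A + n1 (bd A)) := by
  classical
  set V : Finset G := A.support.image (fun p => p.1) ∪ A.support.image (fun p => p.2) ∪
    A.support.image (fun p => p.1 * p.2) with hV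
  set τ : G × G → Bool × G × G := fun p => (decide (0 ≤ A p), p) with hτ
  have hmem : ∀ j ∈ A.support, ∀ x ∈ posL (τ j) + negL (τ j), x ∈ V := by
    intro p hp x hx
    have h1 : p.1 ∈ V := by
      rw [hV]; simp only [Finset.mem_union, Finset.mem_image]
      exact Or.inl (Or.inl ⟨p, hp, rfl⟩)
    have h2 : p.2 ∈ V := by
      rw [hV]; simp only [Finset.mem_union, Finset.mem_image]
      exact Or.inl (Or.inr ⟨p, hp, rfl⟩)
    have h3 : p.1 * p.2 ∈ V := by
      rw [hV]; simp only [Finset.mem_union, Finset.mem_image]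
      exact Or.inr ⟨p, hp, rfl⟩
    unfold posL negL at hx
    rw [hτ] at hx
    by_cases h : 0 ≤ A p
    · simp [h] at hx
      rcases hx with rfl | rfl | rfl <;> assumption
    · simp [h] at hx
      rcases hx with rfl | rfl | rfl <;> assumption
  have hsupp : (bd A).support ⊆ V := by
    intro x hx
    by_contra hxV
    rw [Finsupp.mem_support_iff] at hx
    apply hx
    rw [bd_apply]
    apply Finset.sum_eq_zero
    intro p hp
    have h1 : p.1 ≠ x := by
      rintro rfl
      apply hxV
      rw [hV]; simp only [Finset.mem_union, Finset.mem_image]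
      exact Or.inl (Or.inl ⟨p, hp, rfl⟩)
    have h2 : p.2 ≠ x := by
      rintro rfl
      apply hxV
      rw [hV]; simp only [Finset.mem_union, Finset.mem_image]
      exact Or.inl (Or.inr ⟨p, hp, rfl⟩)
    have h3 : p.1 * p.2 ≠ x := by
      rintro rfl
      apply hxV
      rw [hV]; simp only [Finset.mem_union, Finset.mem_image]
      exact Or.inr ⟨p, hp, rfl⟩
    simp [h1, h2, h3]
  have main := claim_real hq hh A.support (fun p => |A p|) (fun p => abs_nonneg _) τ V hmem
  rw [n1_eq (bd A) V hsupp, ev_bd, n1_eq A A.support (Finset.Subset.refl _)]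
  have e1 : ∑ p ∈ A.support, A p * (φ p.1 + φ p.2 - φ (p.1 * p.2)) =
      ∑ p ∈ A.support, |A p| * (vsum φ (posL (τ p)) - vsum φ (negL (τ p))) := by
    apply Finset.sum_congr rfl
    intro p _
    unfold posL negL
    rw [hτ]
    by_cases h : 0 ≤ A p
    · simp only [h, decide_true, if_true, vsum_cons, vsum_zero, abs_of_nonneg h]
      ring
    · simp only [h, decide_false, Bool.false_eq_true, if_false, vsum_cons, vsum_zero,
        abs_of_neg (lt_of_not_ge h)]
      ring
  have e2 : ∑ x ∈ V, |bd A x| = ∑ x ∈ V, |∑ p ∈ A.support, |A p| *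
      (((posL (τ p)).count x : ℝ) - (negL (τ p)).count x)| := by
    apply Finset.sum_congr rfl
    intro x _
    rw [bd_apply]
    congr 1
    apply Finset.sum_congr rfl
    intro p _
    unfold posL negL
    rw [hτ]
    by_cases h : 0 ≤ A p
    · simp only [h, decide_true, if_true, Multiset.count_cons, Multiset.count_zero,
        abs_of_nonneg h, eq_comm (a := x)]
      push_cast
      ring
    · simp only [h, decide_false, Bool.false_eq_true, if_false, Multiset.count_cons,
        Multiset.count_zero, abs_of_neg (lt_of_not_ge h), eq_comm (a := x)]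
      push_cast
      ring
  rw [e1, e2]
  exact main

/-- For every group and every homogeneous quasimorphism `φ` of defect at most `D` there is a
quasimorphism at distance at most `D / 2` from `φ` and of defect at most `D / 2`. -/
theorem exists_half_defect (hq : ∀ g h : G, |φ (g * h) - φ g - φ h| ≤ D)
    (hh : ∀ (g : G) (n : ℕ), φ (g ^ n) = (n : ℝ) * φ g) :
    ∃ ψ : G → ℝ, (∀ g, |ψ g - φ g| ≤ D / 2) ∧ ∀ g h, |ψ (g * h) - ψ g - ψ h| ≤ D / 2 := by
  have hD : 0 ≤ D := D_nonneg hq
  set Q : (G →₀ ℝ) × (G × G →₀ ℝ) → ℝ :=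
    fun v => ev φ v.1 + D / 2 * n1 v.1 + D / 2 * n1 v.2 with hQ
  set L : (G × G →₀ ℝ) →ₗ[ℝ] (G →₀ ℝ) × (G × G →₀ ℝ) :=
    LinearMap.prod (-bd) LinearMap.id with hL
  set f : (G →₀ ℝ) × (G × G →₀ ℝ) →ₗ.[ℝ] ℝ := ⟨LinearMap.range L, 0⟩ with hf
  obtain ⟨Λ, hΛ1, hΛ2⟩ := exists_extension_of_le_sublinear f Q
    (by
      intro c hc v
      rw [hQ]
      simp only [Prod.smul_fst, Prod.smul_snd, map_smul, smul_eq_mul, n1_smul, abs_of_pos hc]
      ring)
    (by
      intro v w
      rw [hQ]
      simp only [Prod.fst_add, Prod.snd_add, map_add]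
      have h1 := mul_le_mul_of_nonneg_left (n1_add v.1 w.1) (by linarith : 0 ≤ D / 2)
      have h2 := mul_le_mul_of_nonneg_left (n1_add v.2 w.2) (by linarith : 0 ≤ D / 2)
      linarith)
    (by
      rintro ⟨v, A, rfl⟩
      have h0 : f ⟨L A, ⟨A, rfl⟩⟩ = 0 := rfl
      rw [h0]
      have := chain_ineq hq hh A
      show 0 ≤ ev φ (-(bd A)) + D / 2 * n1 (-(bd A)) + D / 2 * n1 A
      rw [map_neg, n1_neg]
      linarith)
  have hker : ∀ A, Λ (L A) = 0 := fun A => hΛ1 ⟨L A, ⟨A, rfl⟩⟩
  have hbd : ∀ A, Λ (bd A, 0) ≤ D / 2 * n1 A := by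
    intro A
    have h1 : Λ (bd A, 0) = Λ (0, A) := by
      have h2 : ((bd A, 0) : (G →₀ ℝ) × (G × G →₀ ℝ)) + L A = (0, A) := by
        rw [hL]; ext1 <;> simp
      have h3 := congrArg Λ h2
      rw [map_add, hker, add_zero] at h3
      exact h3
    rw [h1]
    have := hΛ2 (0, A)
    rw [hQ] at this
    simpa [n1] using this
  refine ⟨fun g => Λ (Finsupp.single g 1, 0), ?_, ?_⟩
  · intro g
    have h1 := hΛ2 (Finsupp.single g 1, 0)
    have h2 := hΛ2 (Finsupp.single g (-1), 0)
    rw [hQ] at h1 h2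
    simp only [ev_single, n1_single, abs_neg, abs_one] at h1 h2
    have hn : n1 (0 : G × G →₀ ℝ) = 0 := by simp [n1]
    rw [hn] at h1 h2
    have h3 : Λ (Finsupp.single g (-1), 0) = - Λ (Finsupp.single g 1, 0) := by
      rw [← map_neg]
      congr 1
      ext1 <;> simp
    rw [h3] at h2
    rw [abs_le]
    constructor <;> linarith
  · intro g h
    have e : ∀ r : ℝ, bd (Finsupp.single (g, h) r) = r • (Finsupp.single g 1 +
        Finsupp.single h 1 - Finsupp.single (g * h) 1) := by
      intro r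
      unfold bd
      rw [Finsupp.linearCombination_single]
      rfl
    have e2 : ∀ r : ℝ, Λ (bd (Finsupp.single (g, h) r), 0) =
        r * (Λ (Finsupp.single g 1, 0) + Λ (Finsupp.single h 1, 0) -
          Λ (Finsupp.single (g * h) 1, 0)) := by
      intro r
      have h0 : ((r • (Finsupp.single g 1 + Finsupp.single h 1 - Finsupp.single (g * h) 1), 0) :
          (G →₀ ℝ) × (G × G →₀ ℝ)) = r • (((Finsupp.single g 1, 0) + (Finsupp.single h 1, 0)) -
            (Finsupp.single (g * h) 1, 0)) := by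
        ext1 <;> simp
      rw [e, h0, map_smul, map_sub, map_add, smul_eq_mul]
    have h1 := hbd (Finsupp.single (g, h) 1)
    have h2 := hbd (Finsupp.single (g, h) (-1))
    rw [e2, n1_single] at h1 h2
    simp only [abs_neg, abs_one] at h1 h2
    rw [abs_le]
    constructor <;> linarith

end main

end Pool.Agent.MP67f4ab
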